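import Pool.Agent.H970.RN.Mom
import Pool.Agent.H970.RG.Mom
import Pool.Agent.H860.RG.Diff
import Pool.Agent.H282.RG.Zero
import Pool.Agent.H100.RG.Main
import Pool.Agent.H297.RG.FinMain
import Pool.Agent.H996.RN.Zero
import Pool.Agent.H97.RN.Diff
import Pool.Agent.H337.RN.Gib
import Pool.Agent.H358.RN.Main
import Pool.Agent.H643.RN.Inf
import Pool.Agent.H297.RN.Fin
import Pool.Agent.H550.RN.Final

/-!
# The mass of the two-dimensional N-vector models, uniformly in N ≥ 3 and β > 0

For every exponentially decaying ferromagnetic coupling `J` on `ℤ²` there is a constant `C` such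
that for every `N ≥ 3` and every `β > 0` the mass is at least `exp (-C D)` and the susceptibility
is at most `exp (C D)`, with

  `D = 1 + min β (β / N + log (1 + log N))`.

For fixed `N` this is `exp (-C (1 + β))`; for `β ≥ N log (1 + log N)` it is `exp (-C β / N)`, the
order of the known upper bound `C exp (-c β / N)`, with a constant which does not depend on `N`.

Proof: renormalisation of the scores of the Ward identities. The scores of the rotations form an
antisymmetric `N × N` matrix. A level consists of vector fields adding up to the global rotations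
and of their scores; the next level corrects the scores by their matrix commutators at a larger
scale, with the coefficient `1 / (N - 2)`, the eigenvalue of the Casimir operator. A bound
`B (N - 2)²` for the sum of the second moments of all the smeared scores becomes
`(C B² / (1 + C B)) (N - 2)²` while the scale is multiplied by a constant, and `B` starts at
`C β / N`. After `O(1 + β / N)` steps `B` is small and it is squared in each further step, so the
influence of the boundary decays like a stretched exponential and beats the factor `β` in the
exit inequality at the scale `exp (C β / N) (1 + log N) ^ 9`.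
-/

set_option autoImplicit false

noncomputable section

namespace Pool.Agent.Results.MP_8be4c0_mp.MassUniformInN

open MeasureTheory Pool.Agent.H5R2.ON Pool.Agent.H983R2.ONJ

/-- **Lower bound for the mass, uniform in `N` and `β`.** Let `J` be any ferromagnetic,
exponentially decaying coupling on `ℤ²`. There is `C` such that for all `N ≥ 3` and `β > 0`, with
`D = 1 + min β (β / N + log (1 + log N))`, the spin correlations on every torus and in every
infinite volume limit decay at rate `exp (-C D)`; the susceptibility of every such limit is at most
`exp (C D)` and its mass is at least `exp (-C D)`. -/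
theorem result (J : ℤ × ℤ → ℝ) (hJ : Admissible J) :
    ∃ C : ℝ, 0 < C ∧ ∀ N : ℕ, 3 ≤ N → ∀ β : ℝ, 0 < β →
      ∀ D : ℝ, D = 1 + min β (β / N + Real.log (1 + Real.log N)) →
      (∀ (L : ℕ) [NeZero L] (x y : Tor L), |corr N L J β x y| ≤
        Real.exp 2 * Real.exp (-Real.exp (-(C * D)) * tnorm (x - y))) ∧
      ∀ G : ℤ × ℤ → ℝ, IsLimitCorr N J β G →
        (∀ x, |G x| ≤ Real.exp 2 * Real.exp (-Real.exp (-(C * D)) * znorm x)) ∧
        Summable G ∧ ∑' x, G x ≤ Real.exp (C * D) ∧
        ∀ μ : ℝ, (∀ n : ℕ, 0 < G (n, 0)) →
          Filter.Tendsto (fun n : ℕ => -(1 / (n : ℝ)) * Real.log (G (n, 0))) Filter.atTop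
            (nhds μ) → Real.exp (-(C * D)) ≤ μ :=
  Pool.Agent.H550.RN.result_of
    (Pool.Agent.H297.RG.fin_of_main
      (Pool.Agent.H100.RG.main_of Pool.Agent.H282.RG.zero
        (Pool.Agent.H970.RG.mom Pool.Agent.H860.RG.diff)))
    (Pool.Agent.H297.RN.fin_of
      (Pool.Agent.H643.RN.inf_of
        (Pool.Agent.H358.RN.main_of Pool.Agent.H996.RN.zero
          (Pool.Agent.H970.RN.mom Pool.Agent.H97.RN.diff))
        Pool.Agent.H337.RN.gib)) J hJ

end Pool.Agent.Results.MP_8be4c0_mp.MassUniformInN
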