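import Pool.Agent.H992.PL.Final2

/-!
# The two-dimensional N-vector models, `N ≥ 3`, under the second moment condition of Mermin and
Wagner: no phase transition, and the two point function decays exactly as the coupling
-/

set_option autoImplicit false

noncomputable section

namespace Pool.Agent.Results.MP_8be4c0_mp.SecondMoment

open MeasureTheory Filter Pool.Agent.H5R2.ON Pool.Agent.H717R2.ON3 Pool.Agent.H983R2.ONJ
  Pool.Agent.H992.PL

theorem abs_corr_le_one (N L : ℕ) [NeZero L] (J : ℤ × ℤ → ℝ) (β : ℝ) (x y : Tor L) :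
    |corr N L J β x y| ≤ 1 := by
  rw [corr_eq, abs_div]
  have hI : Integrable (fun S : Conf N L => Real.exp (pS (cJ L J β) S)) (prior N L) :=
    integrable_prior N L (Real.continuous_exp.comp (continuous_pS _))
  have h0 : 0 ≤ ∫ S : Conf N L, Real.exp (pS (cJ L J β) S) ∂(prior N L) :=
    integral_nonneg fun S => (Real.exp_pos _).le
  rw [abs_of_nonneg h0]
  refine div_le_one_of_le₀ ?_ h0
  refine abs_integral_le_integral_abs.trans (integral_mono_of_nonneg
    (Eventually.of_forall fun S => abs_nonneg _) hI (Eventually.of_forall fun S => ?_))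
  simp only
  rw [abs_mul, abs_of_pos (Real.exp_pos _)]
  refine mul_le_of_le_one_left (Real.exp_pos _).le ?_
  have h := abs_real_inner_le_norm (S x : EuclideanSpace ℝ (Fin N)) (S y)
  have h1 : ‖(S x : EuclideanSpace ℝ (Fin N))‖ = 1 := by simp
  have h2 : ‖(S y : EuclideanSpace ℝ (Fin N))‖ = 1 := by simp
  rwa [h1, h2, one_mul] at h

/-- **Absence of a phase transition for `N ≥ 3` under the second moment condition.**
Let `N ≥ 3`, let `J ≥ 0` (off the origin) be any coupling on `ℤ²` with `∑ |J m| (1 + |m|)² < ∞`,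
and let `B` be any bound for the inverse temperature.

(0) Infinite volume limits `G` of the two point functions exist.

(1) For every `q ≥ 2` with `∑ |J m| (1 + |m|)^q < ∞` (in particular for `q = 2`) the `q`-th moment
of the two point function is bounded, uniformly in `β ≤ B` and in the size of the torus, and the
same holds for every infinite volume limit. In particular the susceptibility is finite at every
temperature.

(2) If `|J m| ≤ A (1 + |m|)^(-s)` with `s > 4`, then `|⟨S_x · S_y⟩| ≤ C (1 + |x - y|)^(-s)`.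

(3) If `|J m| ≤ A exp (-a |m|)`, then the two point function decays exponentially and the mass
is positive.

(4) Conversely `⟨S_0 · S_x⟩ ≥ a β (J x + J (-x))` for all `x ≠ 0`: the power in (2) is exact. -/
theorem result (N : ℕ) (hN : 3 ≤ N) (J : ℤ × ℤ → ℝ) (hJ : ∀ m, m ≠ 0 → 0 ≤ J m)
    (h2 : Summable fun m => |J m| * (1 + znorm m) ^ 2) (B : ℝ) :
    (∀ β : ℝ, ∃ G : ℤ × ℤ → ℝ, IsLimitCorr N J β G) ∧
    (∀ q : ℝ, 2 ≤ q → (Summable fun m => |J m| * (1 + znorm m) ^ q) →
      ∃ C : ℝ, ∀ β : ℝ, 0 < β → β ≤ B →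
        (∀ (L : ℕ) [NeZero L] (x : Tor L),
          ∑ y : Tor L, |corr N L J β x y| * (1 + tnorm (y - x)) ^ q ≤ C) ∧
        ∀ G : ℤ × ℤ → ℝ, IsLimitCorr N J β G →
          (Summable fun x => |G x| * (1 + znorm x) ^ q) ∧
          ∑' x, |G x| * (1 + znorm x) ^ q ≤ C) ∧
    (∀ A s : ℝ, 4 < s → (∀ m, |J m| ≤ A * (1 + znorm m) ^ (-s)) →
      ∃ C : ℝ, ∀ β : ℝ, 0 < β → β ≤ B →
        (∀ (L : ℕ) [NeZero L] (x y : Tor L),
          |corr N L J β x y| ≤ C * (1 + tnorm (y - x)) ^ (-s)) ∧
        ∀ G : ℤ × ℤ → ℝ, IsLimitCorr N J β G → ∀ x, |G x| ≤ C * (1 + znorm x) ^ (-s)) ∧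
    (∀ A a : ℝ, 0 < a → (∀ m, |J m| ≤ A * Real.exp (-a * znorm m)) →
      ∃ C b : ℝ, 0 < b ∧ ∀ β : ℝ, 0 < β → β ≤ B →
        (∀ (L : ℕ) [NeZero L] (x y : Tor L),
          |corr N L J β x y| ≤ C * Real.exp (-b * tnorm (y - x))) ∧
        ∀ G : ℤ × ℤ → ℝ, IsLimitCorr N J β G →
          (∀ x, |G x| ≤ C * Real.exp (-b * znorm x)) ∧
          ∀ μ : ℝ, (∀ n : ℕ, 0 < G (n, 0)) →
            Tendsto (fun n : ℕ => -(1 / (n : ℝ)) * Real.log (G (n, 0))) atTop (nhds μ) →
            b ≤ μ) ∧
    (∃ a : ℝ, 0 < a ∧ ∀ β : ℝ, 0 < β → β ≤ B → ∀ G : ℤ × ℤ → ℝ, IsLimitCorr N J β G →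
      ∀ x, x ≠ 0 → a * β * (J x + J (-x)) ≤ G x) := by
  have hN0 : N ≠ 0 := by omega
  have hNpos : (0 : ℝ) < N := by exact_mod_cast Nat.pos_of_ne_zero hN0
  have hJs := summable_abs_J h2
  refine ⟨fun β => exists_limit fun L _ x y => abs_corr_le_one N L J β x y, ?_⟩
  by_cases hB : 0 < B
  swap
  · refine ⟨fun q _ _ => ⟨0, fun β h1 h3 => absurd (h1.trans_le h3) hB⟩,
      fun A s _ _ => ⟨0, fun β h1 h3 => absurd (h1.trans_le h3) hB⟩,
      fun A a _ _ => ⟨0, 1, one_pos, fun β h1 h3 => absurd (h1.trans_le h3) hB⟩,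
      ⟨1, one_pos, fun β h1 h3 => absurd (h1.trans_le h3) hB⟩⟩
  obtain ⟨C₀, hC₀, hinf⟩ := influence N hN J hJ h2 B
  have hz : ∀ m : ℤ × ℤ, 0 ≤ znorm m := fun m => Real.sqrt_nonneg _
  set A₂ : ℝ := 2 * B * ∑' m, |J m| * (1 + znorm m) ^ 2 with hA₂
  have hA₂0 : 0 ≤ A₂ :=
    mul_nonneg (by linarith) (tsum_nonneg fun m => by positivity)
  have mono2 : ∀ {A' : ℝ}, A₂ ≤ A' → ∀ β : ℝ, 0 < β → β ≤ B → ∀ (L : ℕ) [NeZero L],
      Mom2 A' (cJ L J β) := by
    intro A' hA' β hβ hβB L _
    have h := cJ_mom2 hJ h2 hβ.le hβB L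
    exact ⟨h.nonneg, fun x => (h.mom x).trans hA'⟩
  have hdec : ∀ β : ℝ, 0 < β → β ≤ B → ∀ (L : ℕ) [NeZero L], ∀ R : ℝ, 1 ≤ R → 2 * R < L →
      Inf1 N (cJ L J β) R (C₀ * (1 + R) ^ (-(3 / 2 : ℝ))) := hinf
  refine ⟨?_, ?_, ?_, ?_⟩
  · -- moments
    intro q hq hsq
    set Aq : ℝ := 2 * B * ∑' m, |J m| * (1 + znorm m) ^ q with hAq
    have hz' : ∀ m : ℤ × ℤ, max (znorm m) 0 = znorm m := fun m => max_eq_left (hz m)
    have ht' : ∀ (L : ℕ) (z : Tor L), max (tnorm z) 0 = tnorm z := fun L z =>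
      max_eq_left (tnorm_nonneg z)
    obtain ⟨C, hC, hsum⟩ := sum_all N hN (max A₂ Aq) q C₀ (3 / 2) (TJ J B)
      (hA₂0.trans (le_max_left _ _)) hq hC₀ (by norm_num) (TJ_tendsto h2 B)
    refine ⟨N * C, ?_⟩
    intro β hβ hβB
    have htor : ∀ (L : ℕ) [NeZero L] (x : Tor L),
        ∑ y : Tor L, |corr N L J β x y| * (1 + tnorm (y - x)) ^ q ≤ N * C := by
      intro L _ x
      refine corr_sum_le hN0 (fun e => cJ_nonneg hJ hβ.le e) fun i => ?_
      refine hsum L (cJ L J β) (mono2 (le_max_left _ _) β hβ hβB L) (cJ_tail h2 hβ.le hβB L)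
        (fun x => ?_) (fun R hR hRL => hdec β hβ hβB L R hR hRL) i x
      have h := cJ_momw (w := fun t => (1 + max t 0) ^ q) (fun s t hst => by
          have h1 : max s 0 ≤ max t 0 := max_le_max hst (le_refl 0)
          have h3 : 0 ≤ max s 0 := le_max_right _ _
          exact Real.rpow_le_rpow (by linarith) (by linarith) (by linarith))
        (fun t => by positivity) hJs (by simpa only [hz'] using hsq) hβ.le hβB L x
      simp only [hz', ht'] at h
      exact h.trans (le_max_right _ _)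
    refine ⟨htor, fun G hG => ?_⟩
    have h := H894.PL.lim N J β (fun t => (1 + max t 0) ^ q) (N * C) (fun t => by positivity)
      (fun L _ => by
        have := htor L 0
        simp only [sub_zero] at this
        simpa only [ht'] using this) G hG
    simpa only [hz'] using h
  · -- power laws
    intro A s hs hJA
    obtain ⟨A', hA', hper⟩ := Jper_pow (by linarith) hJA
    obtain ⟨C, hC, hpow⟩ := pow_all N hN (max A₂ (B * A')) s C₀ (3 / 2) (TJ J B)
      (hA₂0.trans (le_max_left _ _)) hs hC₀ (by norm_num) (TJ_tendsto h2 B)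
    refine ⟨N * C, ?_⟩
    intro β hβ hβB
    have htor : ∀ (L : ℕ) [NeZero L] (x y : Tor L),
        |corr N L J β x y| ≤ N * C * (1 + tnorm (y - x)) ^ (-s) := by
      intro L _ x y
      rw [mul_assoc]
      refine corr_pt_le hN0 (fun e => cJ_nonneg hJ hβ.le e) fun i => ?_
      refine hpow L (cJ L J β) (mono2 (le_max_left _ _) β hβ hβB L) (cJ_tail h2 hβ.le hβB L)
        (fun x y => ?_) (fun R hR hRL => hdec β hβ hβB L R hR hRL) i x y
      have hpos : 0 ≤ (1 + tnorm (y - x)) ^ (-s) := by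
        have := tnorm_nonneg (y - x)
        positivity
      have h1 : cJ L J β (x, y) ≤ B * A' * (1 + tnorm (y - x)) ^ (-s) := by
        unfold cJ
        split_ifs with h
        · have : 0 ≤ B * A' := by positivity
          exact mul_nonneg this hpos
        · have h3 := hper L (x - y)
          have h4 := Jper_nonneg hJ (sub_ne_zero.2 h)
          rw [tnorm_sub_comm] at h3
          calc β * Jper L J (x - y) ≤ B * Jper L J (x - y) :=
                mul_le_mul_of_nonneg_right hβB h4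
            _ ≤ B * (A' * (1 + tnorm (y - x)) ^ (-s)) := mul_le_mul_of_nonneg_left h3 hB.le
            _ = _ := by ring
      exact h1.trans (mul_le_mul_of_nonneg_right (le_max_right _ _) hpos)
    refine ⟨htor, fun G hG x => ?_⟩
    exact lim_pt (w := fun t => N * C * (1 + t) ^ (-s)) htor hG x
  · -- exponential decay
    intro A a ha hJA
    have hA : 0 ≤ A := by
      have := (abs_nonneg _).trans (hJA 0)
      exact nonneg_of_mul_nonneg_left this (Real.exp_pos _)
    have hse : Summable fun m => |J m| * Real.exp (a / 2 * znorm m) := by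
      refine Summable.of_nonneg_of_le (fun m => by positivity) (fun m => ?_)
        ((summable_exp_znorm (a / 2) (by positivity)).mul_left A)
      calc |J m| * Real.exp (a / 2 * znorm m)
          ≤ A * Real.exp (-a * znorm m) * Real.exp (a / 2 * znorm m) :=
            mul_le_mul_of_nonneg_right (hJA m) (Real.exp_pos _).le
        _ = A * Real.exp (-(a / 2) * znorm m) := by
            rw [mul_assoc, ← Real.exp_add]
            congr 2
            ring
    set Ae : ℝ := 2 * B * ∑' m, |J m| * Real.exp (a / 2 * znorm m) with hAe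
    obtain ⟨C, b, hC, hb, hexp⟩ := exp_all N hN (max A₂ Ae) (a / 2) C₀ (3 / 2) (TJ J B)
      (hA₂0.trans (le_max_left _ _)) (by positivity) hC₀ (by norm_num) (TJ_tendsto h2 B)
    refine ⟨N * C + 1, b, hb, ?_⟩
    intro β hβ hβB
    have htor : ∀ (L : ℕ) [NeZero L] (x y : Tor L),
        |corr N L J β x y| ≤ (N * C + 1) * Real.exp (-b * tnorm (y - x)) := by
      intro L _ x y
      have h1 : |corr N L J β x y| ≤ N * (C * Real.exp (-b * tnorm (y - x))) := by
        refine corr_pt_le hN0 (fun e => cJ_nonneg hJ hβ.le e) fun i => ?_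
        have h3 := hexp L (cJ L J β) (mono2 (le_max_left _ _) β hβ hβB L)
          (cJ_tail h2 hβ.le hβB L) (fun x => by
            have h := cJ_momw (w := fun t => Real.exp (a / 2 * t))
              (fun s t hst => Real.exp_le_exp.2 (by nlinarith)) (fun t => (Real.exp_pos _).le)
              hJs hse hβ.le hβB L x
            exact h.trans (le_max_right _ _))
          (fun R hR hRL => hdec β hβ hβB L R hR hRL) i x
        have h4 := (Finset.single_le_sum (f := fun y => corJ (cJ L J β) i x y *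
          Real.exp (b * tnorm (y - x))) (fun y _ => mul_nonneg
            (corJ_nonneg hN0 (fun e => cJ_nonneg hJ hβ.le e) i _ _) (Real.exp_pos _).le)
          (Finset.mem_univ y)).trans h3
        rw [neg_mul, Real.exp_neg, ← div_eq_mul_inv, le_div_iff₀ (Real.exp_pos _)]
        exact h4
      have h5 := Real.exp_pos (-b * tnorm (y - x))
      nlinarith
    refine ⟨htor, fun G hG => ?_⟩
    have hbound : ∀ x, |G x| ≤ (N * C + 1) * Real.exp (-b * znorm x) := fun x =>
      lim_pt (w := fun t => (N * C + 1) * Real.exp (-b * t)) htor hG x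
    refine ⟨hbound, ?_⟩
    intro μ hpos hμ
    have hC1 : 0 < N * C + 1 := by positivity
    have hlow : ∀ᶠ n : ℕ in atTop, b - Real.log (N * C + 1) / n ≤
        -(1 / (n : ℝ)) * Real.log (G (n, 0)) := by
      filter_upwards [eventually_gt_atTop 0] with n hn
      have hn' : (0 : ℝ) < n := by exact_mod_cast hn
      have h1 := hbound (n, 0)
      rw [abs_of_pos (hpos n)] at h1
      have h3 : znorm ((n : ℤ), (0 : ℤ)) = n := by
        unfold znorm
        simp
      rw [h3] at h1
      have h4 : Real.log (G (n, 0)) ≤ Real.log (N * C + 1) + -b * n := by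
        have := Real.log_le_log (hpos n) h1
        rw [Real.log_mul hC1.ne' (Real.exp_pos _).ne', Real.log_exp] at this
        exact this
      have h5 : b - Real.log (N * C + 1) / n =
          -(1 / (n : ℝ)) * (Real.log (N * C + 1) + -b * n) := by
        field_simp
        ring
      rw [h5]
      have h6 : (0 : ℝ) < 1 / n := by positivity
      nlinarith
    have hlim2 : Tendsto (fun n : ℕ => b - Real.log (N * C + 1) / (n : ℝ)) atTop
        (nhds (b - 0)) :=
      tendsto_const_nhds.sub (tendsto_const_div_atTop_nhds_zero_nat _)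
    rw [sub_zero] at hlim2
    exact le_of_tendsto_of_tendsto hlim2 hμ hlow
  · -- lower bound
    obtain ⟨a, ha, hlow⟩ := low_all N hN0 A₂ hA₂0
    refine ⟨a, ha, ?_⟩
    intro β hβ hβB G hG x hx
    refine lim_low ha.le hβ.le hJ hJs (fun L _ x y hxy => ?_) hG hx
    rw [corr_eq]
    refine hlow L (cJ L J β) (fun e => cJ_nonneg hJ hβ.le e) (fun x => ?_) x y hxy
    refine (Finset.sum_le_sum fun y _ => ?_).trans ((mono2 le_rfl β hβ hβB L).mom x)
    have h1 : (1 : ℝ) ≤ (1 + tnorm (y - x)) ^ 2 :=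
      one_le_pow₀ (by linarith [tnorm_nonneg (y - x)])
    have h3 : 0 ≤ cJ L J β (x, y) + cJ L J β (y, x) :=
      add_nonneg (cJ_nonneg hJ hβ.le _) (cJ_nonneg hJ hβ.le _)
    nlinarith

end Pool.Agent.Results.MP_8be4c0_mp.SecondMoment
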