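import Pool.Agent.H970.SL.Bound
import Pool.Agent.H970.SL.BoundN
import Pool.Agent.H970.RN.Mom
import Pool.Agent.H970.RG.Mom
import Pool.Agent.H860.RG.Diff
import Pool.Agent.H282.RG.Zero
import Pool.Agent.H100.RG.Main
import Pool.Agent.H996.RN.Zero
import Pool.Agent.H97.RN.Diff
import Pool.Agent.H337.RN.Gib
import Pool.Agent.H358.RN.Main

/-!
# The mass of quasi-two-dimensional N-vector models of thickness W, uniformly in N ≥ 3

The sites are any set `V` with a map `p : V → ℝ²` for which every unit cell contains at most `W`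
of the points `p x`. The couplings are ferromagnetic and of range one (in the projected distance)
and the total coupling of a site with all others is at most `κ`. For all `N ≥ 3` the correlations
decay exponentially in the projected distance, with a rate at least `exp (-C D)`, and the
susceptibility is at most `exp (C D)`, with

  `D = 1 + min (κ W) (κ W / N + log (1 + log N)) + log W`

and a universal constant `C`. For the slab `ℤ² × {0, …, W - 1}` with nearest neighbour couplings
at the inverse temperature `β` one can replace `κ` by `β`.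

Proof: the sites are embedded into `ℤ²` so that the cells become squares of side `s`, where `s²` is
of the order of `W`. The couplings become couplings of range `6 s` on `ℤ²`, and the renormalisation
of the scores of the Ward identities is started at the scale `6 s`, where the second moment of the
smeared scores is of the order `κ s² = κ W`.
-/

set_option autoImplicit false

noncomputable section

namespace Pool.Agent.Results.MP_8be4c0_mp.ThickSlabs

open Pool.Agent.H970.SL Filter
open Pool.Agent.Results.MP_8be4c0_mp.QuasiTwoDimensional (dist2 CellBound corr dist2_nonneg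
  dist2_le)

/-- The sites of the slab `ℤ² × {0, …, W - 1}`. -/
abbrev Slab (W : ℕ) : Type := ℤ × ℤ × Fin W

/-- The projection of the slab to the plane. -/
def proj {W : ℕ} (x : Slab W) : ℝ × ℝ := ((x.1 : ℝ), (x.2.1 : ℝ))

/-- The nearest neighbour coupling of the slab at the inverse temperature `β`. The energy is a sum
over ordered pairs, so that every pair of neighbours contributes `β S_x · S_y`. -/
def slabJ (W : ℕ) (β : ℝ) (x y : Slab W) : ℝ :=
  if |x.1 - y.1| + |x.2.1 - y.2.1| + |((x.2.2 : ℕ) : ℤ) - ((y.2.2 : ℕ) : ℤ)| = 1 then β / 2 else 0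

theorem cell_slab {W : ℕ} : CellBound (V := Slab W) proj W := by
  intro m n
  have h : {x : Slab W | ⌊(proj x).1⌋ = m ∧ ⌊(proj x).2⌋ = n} ⊆
      (fun i : Fin W => ((m, n, i) : Slab W)) '' Set.univ := by
    intro x hx
    obtain ⟨h1, h2⟩ := hx
    simp only [proj, Int.floor_intCast] at h1 h2
    refine ⟨x.2.2, Set.mem_univ _, ?_⟩
    rw [← h1, ← h2]
  refine (Set.encard_le_encard h).trans ((Set.encard_image_le _ _).trans ?_)
  rw [Set.encard_univ]
  simp

theorem nbr_card {W : ℕ} (x : Slab W) (Λ : Finset (Slab W)) :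
    (Λ.filter fun y => |x.1 - y.1| + |x.2.1 - y.2.1| +
      |((x.2.2 : ℕ) : ℤ) - ((y.2.2 : ℕ) : ℤ)| = 1).card ≤ 6 := by
  classical
  obtain ⟨T, hT⟩ : ∃ T : Finset (ℤ × ℤ × ℤ), T = {(1, 0, 0), (-1, 0, 0), (0, 1, 0), (0, -1, 0),
    (0, 0, 1), (0, 0, -1)} := ⟨_, rfl⟩
  have hTc : T.card ≤ 6 := by rw [hT]; exact Finset.card_le_six
  refine le_trans (Finset.card_le_card_of_injOn
    (fun y : Slab W => (x.1 - y.1, x.2.1 - y.2.1, ((x.2.2 : ℕ) : ℤ) - ((y.2.2 : ℕ) : ℤ)))
    (t := T) ?_ ?_) hTc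
  · intro y hy
    simp only [Finset.coe_filter, Set.mem_setOf_eq] at hy
    obtain ⟨-, hy⟩ := hy
    simp only [hT, Finset.coe_insert, Finset.coe_singleton, Set.mem_insert_iff,
      Set.mem_singleton_iff, Prod.mk.injEq]
    have e1 := abs_cases (x.1 - y.1)
    have e2 := abs_cases (x.2.1 - y.2.1)
    have e3 := abs_cases (((x.2.2 : ℕ) : ℤ) - ((y.2.2 : ℕ) : ℤ))
    omega
  · intro y _ z _ hyz
    simp only [Prod.mk.injEq] at hyz
    obtain ⟨h1, h2, h3⟩ := hyz
    have a1 : y.1 = z.1 := by omega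
    have a2 : y.2.1 = z.2.1 := by omega
    have a3 : y.2.2 = z.2.2 := Fin.ext (by omega)
    exact Prod.ext a1 (Prod.ext a2 a3)

theorem short_slab {W : ℕ} {β : ℝ} (hβ : 0 ≤ β) :
    ShortRange (V := Slab W) proj (6 * β) (slabJ W β) := by
  classical
  refine ⟨?_, ?_, ?_⟩
  · intro x y _
    unfold slabJ
    split_ifs
    · positivity
    · exact le_rfl
  · intro x y _ hd
    unfold slabJ
    rw [if_neg]
    intro h
    have h1 : |x.1 - y.1| + |x.2.1 - y.2.1| ≤ 1 := by
      have := abs_nonneg (((x.2.2 : ℕ) : ℤ) - ((y.2.2 : ℕ) : ℤ))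
      omega
    have h2 := dist2_le (proj x) (proj y)
    have h3 : |(proj x).1 - (proj y).1| + |(proj x).2 - (proj y).2| ≤ 1 := by
      have h4 : ((|x.1 - y.1| + |x.2.1 - y.2.1| : ℤ) : ℝ) ≤ ((1 : ℤ) : ℝ) := by exact_mod_cast h1
      simpa [proj] using h4
    linarith
  · intro x Λ _
    have h1 : ∀ y : Slab W, slabJ W β x y + slabJ W β y x =
        if |x.1 - y.1| + |x.2.1 - y.2.1| + |((x.2.2 : ℕ) : ℤ) - ((y.2.2 : ℕ) : ℤ)| = 1 then β
        else 0 := by
      intro y
      unfold slabJ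
      rw [abs_sub_comm y.1 x.1, abs_sub_comm y.2.1 x.2.1,
        abs_sub_comm ((y.2.2 : ℕ) : ℤ) ((x.2.2 : ℕ) : ℤ)]
      split_ifs <;> ring
    rw [Finset.sum_congr rfl fun y _ => h1 y, ← Finset.sum_filter, Finset.sum_const,
      nsmul_eq_mul]
    refine mul_le_mul_of_nonneg_right ?_ hβ
    exact_mod_cast nbr_card x Λ

/-- The two point functions of the N-vector model with the couplings `J` on the set of sites `V`
decay at least at the rate `exp (-D)` in the distance of the projections, and the sums of the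
two point functions are at most `exp D`, in all finite sets and in all infinite volume limits. -/
def Decay (N : ℕ) {V : Type} (p : V → ℝ × ℝ) (J : V → V → ℝ) (D : ℝ) : Prop :=
  (∀ (Λ : Finset V) (x y : V), 0 ≤ corr N J Λ x y ∧
    corr N J Λ x y ≤ Real.exp 4 * Real.exp (-Real.exp (-D) * dist2 (p x) (p y))) ∧
  (∀ (Λ : Finset V) (x : V), ∑ y ∈ Λ, corr N J Λ x y ≤ Real.exp D) ∧
  ∀ (Λ : ℕ → Finset V) (G : V → V → ℝ),
    (∀ x y, Tendsto (fun k => corr N J (Λ k) x y) atTop (nhds (G x y))) →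
      (∀ x y, 0 ≤ G x y ∧ G x y ≤ Real.exp 4 * Real.exp (-Real.exp (-D) * dist2 (p x) (p y))) ∧
      ∀ x, Summable (G x) ∧ ∑' y, G x y ≤ Real.exp D

theorem decay_of {N : ℕ} {V : Type} {p : V → ℝ × ℝ} {J : V → V → ℝ} {D : ℝ}
    (h : ∀ (Λ : Finset V) (x : V), (∀ y, 0 ≤ corr N J Λ x y ∧ corr N J Λ x y ≤ Real.exp 4 *
      Real.exp (-Real.exp (-D) * dist2 (p x) (p y))) ∧ ∑ y ∈ Λ, corr N J Λ x y ≤ Real.exp D) :
    Decay N p J D := by
  classical
  refine ⟨fun Λ x y => (h Λ x).1 y, fun Λ x => (h Λ x).2, ?_⟩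
  intro Λ G hG
  have h0 : ∀ x y, 0 ≤ G x y := fun x y => ge_of_tendsto' (hG x y) fun k => ((h (Λ k) x).1 y).1
  refine ⟨fun x y => ⟨h0 x y, le_of_tendsto' (hG x y) fun k => ((h (Λ k) x).1 y).2⟩, ?_⟩
  intro x
  have hout : ∀ (k : ℕ) (y : V), y ∉ Λ k → corr N J (Λ k) x y = 0 := by
    intro k y hy
    unfold Pool.Agent.Results.MP_8be4c0_mp.QuasiTwoDimensional.corr
    rw [dif_neg fun hh => hy hh.2]
  have hfin : ∀ u : Finset V, ∑ y ∈ u, G x y ≤ Real.exp D := by
    intro u
    refine le_of_tendsto' (tendsto_finsetSum u fun y _ => hG x y) fun k => ?_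
    refine le_trans ?_ (h (Λ k) x).2
    have e1 : ∑ y ∈ u, corr N J (Λ k) x y = ∑ y ∈ u.filter (· ∈ Λ k), corr N J (Λ k) x y := by
      refine (Finset.sum_filter_of_ne ?_).symm
      intro y _ hne
      by_contra hy
      exact hne (hout k y hy)
    rw [e1]
    exact Finset.sum_le_sum_of_subset_of_nonneg (fun y hy => (Finset.mem_filter.1 hy).2)
      fun y _ _ => ((h (Λ k) x).1 y).1
  have hsm : Summable (G x) := summable_of_sum_le (fun y => h0 x y) hfin
  exact ⟨hsm, hsm.tsum_le_of_sum_le hfin⟩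

/-- `min (κ W) (κ W / N + log (1 + log N)) + log W + 1` -/
def expo (N W : ℕ) (κ : ℝ) : ℝ :=
  1 + min (κ * W) (κ * W / N + Real.log (1 + Real.log N)) + Real.log W

/-- **Quasi-two-dimensional N-vector models of thickness `W`, uniformly in `N`.** There is a
universal `C` such that for all `N ≥ 3` and `W ≥ 1`: if every unit cell of the plane contains the
projections of at most `W` sites and the couplings are ferromagnetic, of range one and of total
strength at most `κ` at every site, then the correlations decay exponentially with a rate at least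
`exp (-C D)`, where `D = 1 + min (κ W) (κ W / N + log (1 + log N)) + log W`. In the slab
`ℤ² × {0, …, W - 1}` with nearest neighbour couplings at the inverse temperature `β` the rate, and
the mass of every infinite volume limit, is at least `exp (-C D)` with `β` in the place of `κ`. -/
theorem result : ∃ C : ℝ, 0 < C ∧ ∀ N : ℕ, 3 ≤ N → ∀ W : ℕ, 1 ≤ W →
    (∀ κ : ℝ, 0 ≤ κ → ∀ (V : Type) (p : V → ℝ × ℝ) (J : V → V → ℝ), CellBound p W →
      ShortRange p κ J → Decay N p J (C * expo N W κ)) ∧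
    ∀ β : ℝ, 0 ≤ β → Decay N proj (slabJ W β) (C * expo N W β) ∧
      ∀ (Λ : ℕ → Finset (Slab W)) (G : Slab W → Slab W → ℝ),
        (∀ x y, Tendsto (fun k => corr N (slabJ W β) (Λ k) x y) atTop (nhds (G x y))) →
        ∀ (i j : Fin W) (μ : ℝ), (∀ n : ℕ, 0 < G (0, 0, i) ((n : ℤ), 0, j)) →
          Tendsto (fun n : ℕ => -(1 / (n : ℝ)) * Real.log (G (0, 0, i) ((n : ℤ), 0, j))) atTop
            (nhds μ) → Real.exp (-(C * expo N W β)) ≤ μ := by
  obtain ⟨C1, hC1, hb1⟩ := bound (Pool.Agent.H100.RG.main_of Pool.Agent.H282.RG.zero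
    (Pool.Agent.H970.RG.mom Pool.Agent.H860.RG.diff))
  obtain ⟨C2, hC2, hb2⟩ := boundN (Pool.Agent.H358.RN.main_of Pool.Agent.H996.RN.zero
    (Pool.Agent.H970.RN.mom Pool.Agent.H97.RN.diff)) Pool.Agent.H337.RN.gib
  have hmono : ∀ {N : ℕ} {V : Type} {p : V → ℝ × ℝ} {J : V → V → ℝ} {D D' : ℝ}, D ≤ D' →
      (∀ (Λ : Finset V) (x : V), (∀ y, 0 ≤ corr N J Λ x y ∧ corr N J Λ x y ≤ Real.exp 4 *
      Real.exp (-Real.exp (-D) * dist2 (p x) (p y))) ∧ ∑ y ∈ Λ, corr N J Λ x y ≤ Real.exp D) →
      Decay N p J D' := by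
    intro N V p J D D' hD h
    refine decay_of fun Λ x => ⟨fun y => ⟨((h Λ x).1 y).1, ((h Λ x).1 y).2.trans ?_⟩,
      (h Λ x).2.trans (Real.exp_le_exp.2 hD)⟩
    refine mul_le_mul_of_nonneg_left (Real.exp_le_exp.2 ?_) (Real.exp_pos _).le
    have h1 : Real.exp (-D') ≤ Real.exp (-D) := Real.exp_le_exp.2 (neg_le_neg hD)
    have := mul_le_mul_of_nonneg_right h1 (dist2_nonneg (p x) (p y))
    linarith
  obtain ⟨C, hC⟩ : ∃ C : ℝ, C = 6 * (C1 + C2) := ⟨_, rfl⟩
  refine ⟨C, by linarith, ?_⟩
  intro N hN W hW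
  have hW1 : (1 : ℝ) ≤ W := by exact_mod_cast hW
  have hlogW : 0 ≤ Real.log W := Real.log_nonneg hW1
  have hN3 : (3 : ℝ) ≤ N := by exact_mod_cast hN
  have hNr : (0 : ℝ) < N := by linarith
  obtain ⟨g, hg⟩ : ∃ g : ℝ, g = Real.log (1 + Real.log N) := ⟨_, rfl⟩
  have hg0 : 0 ≤ g := by
    rw [hg]
    exact Real.log_nonneg (by linarith [Real.log_nonneg (show (1 : ℝ) ≤ N by linarith)])
  have hall : ∀ κ : ℝ, 0 ≤ κ → ∀ D' : ℝ, (C1 + C2) * expo N W κ ≤ D' →
      ∀ (V : Type) (p : V → ℝ × ℝ) (J : V → V → ℝ), CellBound p W →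
      ShortRange p κ J → Decay N p J D' := by
    intro κ hκ D' hD' V p J hp hJ
    unfold expo at hD'
    rw [← hg] at hD'
    have e1 : 0 ≤ κ * W := by positivity
    have e2 : 0 ≤ κ * W / N := by positivity
    rcases le_total (κ * W) (κ * W / N + g) with h | h
    · rw [min_eq_left h] at hD'
      refine hmono ?_ (fun Λ x => hb1 N hN W κ hW hκ V p J hp hJ Λ x)
      have h2 : 0 ≤ C2 * (1 + κ * W + Real.log W) := by positivity
      linarith
    · rw [min_eq_right h] at hD'
      refine hmono ?_ (fun Λ x => hb2 N hN W κ hW hκ V p J hp hJ Λ x)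
      rw [← hg]
      have h2 : 0 ≤ C1 * (1 + (κ * W / N + g) + Real.log W) := by positivity
      linarith
  have hexpo0 : ∀ κ : ℝ, 0 ≤ κ → 0 ≤ expo N W κ := by
    intro κ hκ
    unfold expo
    rw [← hg]
    have h1 : 0 ≤ min (κ * W) (κ * W / N + g) := le_min (by positivity) (by positivity)
    linarith
  refine ⟨?_, ?_⟩
  · intro κ hκ V p J hp hJ
    refine hall κ hκ _ ?_ V p J hp hJ
    have h1 := mul_nonneg (show 0 ≤ C1 + C2 by linarith) (hexpo0 κ hκ)
    rw [hC]
    linarith
  · intro β hβ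
    have hdec : Decay N proj (slabJ W β) (C * expo N W β) := by
      refine hall (6 * β) (by positivity) _ ?_ (Slab W) proj (slabJ W β) cell_slab
        (short_slab hβ)
      have h1 : expo N W (6 * β) ≤ 6 * expo N W β := by
        unfold expo
        rw [← hg]
        have h2 : min (6 * β * W) (6 * β * W / N + g) ≤ 6 * min (β * W) (β * W / N + g) := by
          rcases le_total (β * W) (β * W / N + g) with h | h
          · rw [min_eq_left h]
            refine (min_le_left _ _).trans ?_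
            linarith
          · rw [min_eq_right h]
            refine (min_le_right _ _).trans ?_
            have e3 : 6 * β * W / N = 6 * (β * W / N) := by ring
            rw [e3]
            linarith
        linarith
      have h3 := mul_le_mul_of_nonneg_left h1 (show 0 ≤ C1 + C2 by linarith)
      rw [hC]
      linarith
    refine ⟨hdec, ?_⟩
    intro Λ G hG i j μ hpos hμ
    obtain ⟨r, hr⟩ : ∃ r : ℝ, r = Real.exp (-(C * expo N W β)) := ⟨_, rfl⟩
    have hG1 := (hdec.2.2 Λ G hG).1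
    rw [← hr] at hG1 ⊢
    have hgt : Tendsto (fun n : ℕ => r - 4 * (1 / (n : ℝ))) atTop (nhds (r - 4 * 0)) :=
      tendsto_const_nhds.sub (tendsto_one_div_atTop_nhds_zero_nat.const_mul 4)
    rw [mul_zero, sub_zero] at hgt
    refine le_of_tendsto_of_tendsto hgt hμ ?_
    filter_upwards [eventually_ge_atTop 1] with n hn
    have hn1 : (1 : ℝ) ≤ n := by exact_mod_cast hn
    have h1 := (hG1 (0, 0, i) ((n : ℤ), 0, j)).2
    have h2 : dist2 (proj ((0, 0, i) : Slab W)) (proj (((n : ℤ), 0, j) : Slab W)) = n := by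
      simp only [dist2, proj]
      push_cast
      rw [show ((0 : ℝ) - n) ^ 2 + (0 - 0) ^ 2 = (n : ℝ) ^ 2 by ring]
      exact Real.sqrt_sq (by linarith)
    rw [h2, ← Real.exp_add] at h1
    have h3 : Real.log (G (0, 0, i) ((n : ℤ), 0, j)) ≤ 4 + -r * n := by
      have := Real.log_le_log (hpos n) h1
      rwa [Real.log_exp] at this
    have h4 : 1 / (n : ℝ) * Real.log (G (0, 0, i) ((n : ℤ), 0, j)) ≤ 1 / (n : ℝ) * (4 + -r * n) :=
      mul_le_mul_of_nonneg_left h3 (by positivity)
    have h5 : 1 / (n : ℝ) * (4 + -r * n) = 4 * (1 / (n : ℝ)) - r := by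
      field_simp
      ring
    linarith

end Pool.Agent.Results.MP_8be4c0_mp.ThickSlabs
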